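import Pool.Agent.Run7.h929.G3.Pub
import Pool.Agent.Run7.h136.G3.Triple

/-!
# A bound for the torsion of the Jacobians of `d y² = f(x)`, `f` a monic quintic whose reductions
have at most one node, for all number fields and all quadratic twists
-/

set_option autoImplicit false

namespace Pool.Agent.Results.MP_160b6c_nt.GenusTwoTorsion

open Polynomial NumberField Filter Topology

/-- The affine coordinate ring `K[x, Y] / (Y² - g(x))` of the curve `Y² = g(x)`. -/
def CoordRing {K : Type} [Field K] (g : K[X]) : Type := QuadraticAlgebra K[X] g 0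

noncomputable instance {K : Type} [Field K] (g : K[X]) : CommRing (CoordRing g) :=
  QuadraticAlgebra.instCommRing

/-- The function on the curve given by a polynomial in `x`. -/
noncomputable def ofPoly {K : Type} [Field K] (g : K[X]) (u : K[X]) : CoordRing g :=
  (⟨u, 0⟩ : QuadraticAlgebra K[X] g 0)

/-- The function `Y` on the curve. -/
noncomputable def fnY {K : Type} [Field K] (g : K[X]) : CoordRing g :=
  (⟨0, 1⟩ : QuadraticAlgebra K[X] g 0)

/-- The ideal `(u, Y - V)` of the coordinate ring. -/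
noncomputable def divisor {K : Type} [Field K] (g : K[X]) (p : K[X] × K[X]) :
    Ideal (CoordRing g) :=
  Ideal.span {ofPoly g p.1, fnY g - ofPoly g p.2}

/-- Two ideals lie in the same ideal class. -/
def SameClass {B : Type} [CommRing B] (I J : Ideal B) : Prop :=
  ∃ x y : B, x ≠ 0 ∧ y ≠ 0 ∧ Ideal.span {x} * I = Ideal.span {y} * J

/-- The pairs `(u, V)` of Mumford, which are the `K`-rational points of the Jacobian of the curve
`Y² = g(x)`, if `g` has degree five and no multiple root. -/
structure IsPoint {K : Type} [Field K] (g : K[X]) (p : K[X] × K[X]) : Prop where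
  monic : p.1.Monic
  natDegree_le : p.1.natDegree ≤ 2
  degree_lt : p.2.degree < p.1.degree
  dvd : p.1 ∣ g - p.2 ^ 2

/-- The multiple `m p` of the point `p` is zero. -/
def Vanishes {K : Type} [Field K] (g : K[X]) (p : K[X] × K[X]) (m : ℕ) : Prop :=
  SameClass (divisor g p ^ m) ⊤

/-- The right hand side of `Y² = d f(x)`; with `Y = d y` this is the curve `d y² = f(x)`. -/
noncomputable def curve {K : Type} [Field K] (f : (𝓞 K)[X]) (d : K) : K[X] :=
  C d * f.map (algebraMap (𝓞 K) K)

/-- The polynomial has exactly one multiple root, which is a double root. -/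
def OneDoubleRoot {F : Type} [CommRing F] (f : F[X]) : Prop :=
  ∃ (r : F) (g : F[X]), f = (X - C r) ^ 2 * g ∧ g.eval r ≠ 0 ∧ g.Separable

/-- The curve `y² = f(x)` has exactly one node modulo `P`. -/
def HasNode {K : Type} [Field K] (f : (𝓞 K)[X]) (P : Ideal (𝓞 K)) : Prop :=
  OneDoubleRoot (f.map (Ideal.Quotient.mk P))

/-- The hypotheses on the quintic `f`, the twist `d`, the sizes `H` of the coefficients at the
infinite places, the exceptional places `S` and the places `T` at which the twist is ramified. -/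
structure Data {K : Type} [Field K] [NumberField K] (f : (𝓞 K)[X]) (d : K)
    (H : InfinitePlace K → ℝ) (S T : Finset (FinitePlace K)) : Prop where
  monic : f.Monic
  natDegree : f.natDegree = 5
  discr_ne : f.discr ≠ 0
  twist_ne : d ≠ 0
  one_le : ∀ v, 1 ≤ H v
  coeff_le : ∀ v : InfinitePlace K, ∀ i < 5, v (f.coeff i : K) ≤ H v ^ (5 - i)
  outside : ∀ v ∉ S, v (2 : K) = 1 ∧ (v ((f.discr : 𝓞 K) : K) = 1 ∨
    (HasNode f v.maximalIdeal.asIdeal ∧
      (f.discr ∉ v.maximalIdeal.asIdeal ^ 4 ∨ ∀ z : K, v d ≠ v z ^ 2)))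
  odd : ∀ v ∈ T, v (2 : K) = 1 ∧ (∀ z : K, v d ≠ v z ^ 2) ∧
    (v ((f.discr : 𝓞 K) : K) = 1 ∨ HasNode f v.maximalIdeal.asIdeal)

/-- The lower bound, in terms of the sizes `H`, the places `T` and the discriminant `D` at the
exceptional places `S` and at the infinite places. -/
noncomputable def bound (N A : ℝ) {K : Type} [Field K] [NumberField K] (D : 𝓞 K)
    (H : InfinitePlace K → ℝ) (S T : Finset (FinitePlace K)) : ℝ :=
  2 * ∑ v : InfinitePlace K, v.mult * Real.log (H v) +
    ∑ v ∈ T, Real.log (Ideal.absNorm v.maximalIdeal.asIdeal) -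
    N * (∑ v ∈ S, -Real.log (v (2 * (D : K))) +
      ∑ v : InfinitePlace K, v.mult * (20 * Real.log (H v) - Real.log (v (D : K)))) -
    A * Module.finrank ℚ K

theorem mum_of {K : Type} [Field K] {g : K[X]} {p : K[X] × K[X]} (h : IsPoint g p) :
    Run7.h929.G2.Mum g p.1 p.2 := ⟨h.1, h.2, h.3, h.4⟩

/-- Uniform boundedness of the torsion for the Jacobians of all quadratic twists of `y² = f(x)`,
`f` monic of degree five, with at most one node modulo every place outside `S`, of thickness at most
three or twisted: if the bound is positive, every rational torsion point of the Jacobian is killed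
by `24`, whatever the number field. -/
theorem result : ∃ N A : ℝ, ∀ (K : Type) [Field K] [NumberField K] (f : (𝓞 K)[X])
    (d : K) (H : InfinitePlace K → ℝ) (S T : Finset (FinitePlace K)), Data f d H S T →
    0 < bound N A f.discr H S T →
    ∀ p : K[X] × K[X], IsPoint (curve f d) p → ∀ m : ℕ, 1 ≤ m → Vanishes (curve f d) p m →
      Vanishes (curve f d) p 24 := by
  obtain ⟨κ, hκ, hm⟩ := Run7.h929.G3.pub Run7.h136.G3.tripleS
  refine ⟨Run7.h929.G2.NN / 3, Real.log Run7.h929.G2.CC / 3, ?_⟩
  intro K _ _ f d H S T hD hpos p hp m hm1 hv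
  by_contra h24
  obtain ⟨hf, h5, hdisc, hd, hH, hHf, hS, hT⟩ := hD
  obtain ⟨hq, hdis⟩ := Run7.h929.G2.quin_cf (K := K) hf h5
  have hrhs : Run7.h929.G2.rhs (Run7.h929.G2.cf f) d = curve f d := by
    rw [Run7.h929.G2.rhs, hq, curve]
  have hy : Run7.h929.G3.Hyp0 (Run7.h929.G2.cf f) d H := by
    refine ⟨hH, fun v i => Run7.h929.G2.fin_int v _, fun v i => hHf v i i.2, ?_, hd⟩
    rw [hdis]
    exact fun h0 => hdisc (RingOfIntegers.ext h0)
  have hM : Run7.h929.G2.Mum (Run7.h929.G2.rhs (Run7.h929.G2.cf f) d) p.1 p.2 := by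
    rw [hrhs]
    exact mum_of hp
  have hlb : Run7.h929.G2.lowb K (Run7.h929.G2.cf f) H S T =
      bound (Run7.h929.G2.NN / 3) (Real.log Run7.h929.G2.CC / 3) f.discr H S T := by
    rw [Run7.h929.G2.lowb, Run7.h929.G2.defect, hdis]
    rfl
  obtain ⟨c, -, hlow, ht⟩ := hm K f d H S T hf h5 hdisc hy ⟨hS, hT⟩ p.1 p.2 hM (by
    rw [hrhs]
    exact h24)
  have h0 := ht m hm1 (by
    rw [hrhs]
    exact hv)
  rw [hlb, h0] at hlow
  have := mul_pos hκ hpos
  linarith

end Pool.Agent.Results.MP_160b6c_nt.GenusTwoTorsion
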