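import Pool.Agent.Run7.h23.To.Nf

/-!
# Torsion of a positive proportion of hyperelliptic Jacobians and of all their unramified twists, over number fields of all degrees

Let `F` be a number field, `g ≥ 1`, `v` a prime of `F` over `2`, and `f` a monic polynomial of degree
`2 g + 1` over `𝓞 F`, without multiple roots. We call `f` regular at `v` if
`f = A ^ 2 + x B ^ 2 + π E` modulo `v ^ 2`, with `A` of degree at most `g`, `B` monic of degree `g`, `π` a uniformizer, `E` of
degree at most `2 g` and prime to `x B` modulo `v` (modulo `v` every `f` is of the form `A ^ 2 + x B ^ 2`; the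
condition is on `E`).

Theorem. (1) Let `f` be regular at `v`. Let `K` be ANY number field containing `F`, of any degree, with a prime
`w` over `v` which is unramified over `F`, and let `D` be ANY integer of `K` with `D = 1` modulo `w ^ 2`. Then the
Jacobian `J_D` of `D y ^ 2 = f(x)` has no `K`-rational torsion points of odd order.
(2) If moreover `f` is irreducible over `K` then `J_D(K)` has no torsion points at all. This is the case if
`f` is irreducible modulo some prime `𝔭` of `F` and `K` has a prime over `𝔭` with residue degree prime to `2 g + 1`.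
(3) Let `T` be a finite set of primes of `F`. There is `c > 0` such that for all large `B` at least `c` times the
number of ALL monic `f` of degree `2 g + 1` over `𝓞 F` without term of degree `2 g` and of height at most `B` are
regular at all the primes over `2` and irreducible modulo all the primes over `2` and in `T`.

So for a positive proportion of the odd hyperelliptic curves `y ^ 2 = f(x)` of genus `g` all the principally
polarised Jacobians `J_D` have trivial torsion over ALL fields `K` with an unramified prime over `2` of residue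
degree prime to `2 g + 1`, for instance for all `K` of degree at most `2 g` with an unramified prime over `2` if
`2 g + 1` is a prime number, and for all `D` as above: for these Jacobians the uniform boundedness holds with
the bound one, which does not depend on the field and on its degree. Up to squares the `D` are those for which
`K_w (√D) / K_w` is unramified, that is, all the quadratic twists by characters unramified at `w`. Since a torsion point is
defined over a finite extension, by (1) there is no torsion of odd order over the algebraic part of the maximal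
unramified extension of `F_v`.

`J_D(K)` is the group of ideal classes of `K[x, y] / (y ^ 2 - D ^ (2 g + 1) f(x / D))`; a torsion point of order
dividing `n` is a nonzero ideal `I` with `I ^ n` principal.

The proof uses the local theorem of `MP_7ede32_ag.OneSetAllTwoExtensions` (`Run7/h23/Lo`): it shows that a class
which is divisible by all powers of two *within a set of classes closed under halving* is trivial, here for the classes of
odd order (`Run7/h23/To`). No theory of Néron models is used.
-/

set_option autoImplicit false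
set_option linter.all false

namespace Pool.Agent.Results.MP_160b6c_nt.TorsionOverAllFields

open Filter NumberField IsDedekindDomain Polynomial
open scoped Classical

section defs

variable (F : Type) [Field F] [NumberField F]

/-- All monic polynomials of degree `2 g + 1` with coefficients in the ring of integers of `F`, without term
of degree `2 g`, such that all conjugates of the coefficient of `x ^ j` have absolute value at
most `B ^ (2 g + 1 - j)`. -/
def Polys (g B : ℕ) : Set ((𝓞 F)[X]) :=
  {f | f.Monic ∧ f.natDegree = 2 * g + 1 ∧ f.coeff (2 * g) = 0 ∧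
    ∀ j ≤ 2 * g, ∀ σ : F →+* ℂ, ‖σ (f.coeff j : F)‖ ≤ (B : ℝ) ^ (2 * g + 1 - j)}

variable {F}

/-- `f` is irreducible modulo the prime `𝔭`. -/
def IrreducibleMod (𝔭 : HeightOneSpectrum (𝓞 F)) (f : (𝓞 F)[X]) : Prop :=
  Irreducible (f.map (Ideal.Quotient.mk 𝔭.asIdeal))

/-- The condition at the prime `v` over `2`: modulo `v ^ 2` the polynomial `f` is `A ^ 2 + x B ^ 2 + π E`
with `E` prime to `x B` modulo `v`. -/
def Regular (v : HeightOneSpectrum (𝓞 F)) (g : ℕ) (f : (𝓞 F)[X]) : Prop :=
  ∃ (π : 𝓞 F) (A B E : (𝓞 F)[X]), π ∈ v.asIdeal ∧ π ∉ v.asIdeal ^ 2 ∧ A.natDegree ≤ g ∧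
    B.Monic ∧ B.natDegree = g ∧ E.natDegree ≤ 2 * g ∧
    (∀ j, (f - (A ^ 2 + X * B ^ 2 + C π * E)).coeff j ∈ v.asIdeal ^ 2) ∧
    IsCoprime (E.map (Ideal.Quotient.mk v.asIdeal)) (X * B.map (Ideal.Quotient.mk v.asIdeal))

variable {K : Type} [Field K] [NumberField K] [Algebra F K]

/-- The prime `w` of `K` is over the prime `v` of `F`. -/
def Over (v : HeightOneSpectrum (𝓞 F)) (w : HeightOneSpectrum (𝓞 K)) : Prop :=
  v.asIdeal.map (algebraMap (𝓞 F) (𝓞 K)) ≤ w.asIdeal

/-- The prime `w` of `K` is over the prime `v` of `F` and unramified. -/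
def UnramifiedOver (v : HeightOneSpectrum (𝓞 F)) (w : HeightOneSpectrum (𝓞 K)) : Prop :=
  Over v w ∧ ¬ v.asIdeal.map (algebraMap (𝓞 F) (𝓞 K)) ≤ w.asIdeal ^ 2

/-- The prime `w` of `K` is over the prime `v` of `F`, with residue degree `d`. -/
def ResidueDegree (v : HeightOneSpectrum (𝓞 F)) (w : HeightOneSpectrum (𝓞 K)) (d : ℕ) : Prop :=
  Over v w ∧ Nat.card (𝓞 K ⧸ w.asIdeal) = Nat.card (𝓞 F ⧸ v.asIdeal) ^ d

omit [NumberField K] in
/-- The polynomial over the extension `K` of `F`. -/
noncomputable def overK (K : Type) [Field K] [Algebra F K] (f : (𝓞 F)[X]) : K[X] :=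
  (f.map (algebraMap (𝓞 F) F)).map (algebraMap F K)

/-- The equation `y ^ 2 = D ^ (2 g + 1) f(x / D)` of the quadratic twist `D y ^ 2 = f(x)`. -/
noncomputable def twist (f : (𝓞 F)[X]) (D : 𝓞 K) : K[X] := (overK K f).scaleRoots (D : K)

end defs

/-- The Jacobian of `y ^ 2 = P(x)`, `P` monic and separable of odd degree, has no nonzero `K`-rational
points `c` with `n c = 0`: if the `n`-th power of an ideal of `K[x, y] / (y ^ 2 - P)` is principal, the ideal is
principal. -/
def NoPointsKilledBy {K : Type} [Field K] (n : ℕ) (P : K[X]) : Prop :=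
  ∀ I : Ideal (AdjoinRoot (X ^ 2 - C P : K[X][X])), (I ^ n).IsPrincipal → I.IsPrincipal

theorem ht_iff {F : Type} [Field F] [NumberField F] (g B : ℕ) (f : (𝓞 F)[X]) :
    Pool.Agent.N783.PF.Ht g B f ↔ f ∈ Polys F g B :=
  ⟨fun h => ⟨h.mon, h.deg, h.tr, h.ht⟩, fun h => ⟨h.1, h.2.1, h.2.2.1, h.2.2.2⟩⟩

theorem mem (F : Type) [Field F] [NumberField F] (g B : ℕ) : (X ^ (2 * g + 1) : (𝓞 F)[X]) ∈ Polys F g B := by
  refine ⟨monic_X_pow _, natDegree_X_pow _, ?_, fun j hj σ => ?_⟩
  · rw [coeff_X_pow, if_neg (by omega)]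
  · rw [coeff_X_pow, if_neg (by omega)]
    simp

theorem overK_eq {F K : Type} [Field F] [NumberField F] [Field K] [NumberField K] [Algebra F K]
    (f : (𝓞 F)[X]) :
    (f.map (algebraMap (𝓞 F) (𝓞 K))).map (algebraMap (𝓞 K) K) = overK K f := by
  rw [overK, Polynomial.map_map, Polynomial.map_map]
  congr 1

/-- From the classes to the ideals. -/
theorem of_eqv {K : Type} [Field K] {P : K[X]} {n : ℕ}
    (hG : Pool.Agent.Y160.SE.Good 2 (-1 : K) P)
    (h : ∀ I : Ideal (AdjoinRoot (X ^ 2 - C P : K[X][X])), I ≠ ⊥ →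
      Pool.Agent.Y160.SE.Eqv (I ^ n) ⊤ → Pool.Agent.Y160.SE.Eqv I ⊤) : NoPointsKilledBy n P := by
  haveI := Pool.Agent.Y160.SE.hyps.ring 2 K (-1) _ hG
  intro I hI
  by_cases h0 : I = ⊥
  · rw [h0]; infer_instance
  · have h1 : I ^ n ≠ ⊥ := pow_ne_zero n h0
    obtain ⟨z, hz⟩ := Run7.h23.Lo.principal_of_eqv (h I h0 (Run7.h23.To.eqv_top h1 hI))
    exact ⟨z, by rw [Ideal.submodule_span_eq]; exact hz⟩

/-- Let `F` be a number field, `g ≥ 1` and `T` a finite set of primes of `F`. (1) Let `f` be monic of degree
`2 g + 1` over the ring of integers, without multiple roots and regular at a prime `v` over `2`. Let `K` be any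
number field containing `F`, `w` a prime of `K` over `v` and unramified over it, and `D` an integer of `K` with
`D = 1` modulo `w ^ 2`. Then `D ≠ 0`, the Jacobian of `D y ^ 2 = f(x)` has no points over `K` of odd order, and no
torsion points over `K` if `f` is irreducible over `K`. (2) If `f` is irreducible modulo a prime `𝔭` of `F` and
`K` has a prime over `𝔭` with residue degree prime to `2 g + 1` then `f` is irreducible over `K`. (3) There is
`c > 0` such that for all large `B` at least `c` times the number of all monic `f` of degree `2 g + 1` without term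
of degree `2 g` and of height at most `B` are regular at all primes over `2` and irreducible modulo all
primes over `2` and all primes in `T`. -/
theorem result (F : Type) [Field F] [NumberField F] (g : ℕ) (hg : 1 ≤ g)
    (T : Finset (HeightOneSpectrum (𝓞 F))) :
    (∀ f : (𝓞 F)[X], f.Monic → f.natDegree = 2 * g + 1 → (f.map (algebraMap (𝓞 F) F)).Separable →
      ∀ v : HeightOneSpectrum (𝓞 F), (2 : 𝓞 F) ∈ v.asIdeal → Regular v g f →
      ∀ (K : Type) [Field K] [NumberField K] [Algebra F K] (w : HeightOneSpectrum (𝓞 K)),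
        UnramifiedOver v w → ∀ D : 𝓞 K, D - 1 ∈ w.asIdeal ^ 2 →
          D ≠ 0 ∧ (∀ n, Odd n → NoPointsKilledBy n (twist f D)) ∧
            (Irreducible (overK K f) → ∀ n, 0 < n → NoPointsKilledBy n (twist f D))) ∧
    (∀ f : (𝓞 F)[X], f.Monic → f.natDegree = 2 * g + 1 →
      ∀ 𝔭 : HeightOneSpectrum (𝓞 F), IrreducibleMod 𝔭 f →
      ∀ (K : Type) [Field K] [NumberField K] [Algebra F K] (𝔓 : HeightOneSpectrum (𝓞 K)) (d : ℕ),
        ResidueDegree 𝔭 𝔓 d → Nat.Coprime d (2 * g + 1) → Irreducible (overK K f)) ∧
    ∃ c : ℝ, 0 < c ∧ ∀ᶠ B : ℕ in atTop,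
      (Polys F g B).Finite ∧ 0 < (Polys F g B).ncard ∧
      c * ((Polys F g B).ncard : ℝ) ≤
        (({f ∈ Polys F g B | (∀ 𝔭 ∈ T, IrreducibleMod 𝔭 f) ∧
          ∀ v : HeightOneSpectrum (𝓞 F), (2 : 𝓞 F) ∈ v.asIdeal →
            IrreducibleMod v f ∧ Regular v g f}).ncard : ℝ) := by
  refine ⟨?_, ?_, ?_⟩
  · intro f hm hd hs v h2 hR K _ _ _ w hw D hD
    obtain ⟨h0, hG, h1⟩ := Run7.h23.To.nf_odd (K := K) hm hd hs h2 hw.1 hw.2 hR hD
      (P := twist f D) (by rw [overK_eq]; rfl)
    refine ⟨h0, fun n hn => of_eqv hG fun I hI h => h1 I hI n hn h, fun hi n hn => ?_⟩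
    have hDK : (D : K) ≠ 0 := by exact_mod_cast h0
    exact of_eqv hG (Run7.h23.To.all_tor hG (Pool.Agent.N170.PF.irr_scale hDK hi)
      (fun I hI n hn h => h1 I hI n hn h) n hn)
  · intro f hm hd 𝔭 hi K _ _ _ 𝔓 d h1 h2
    rw [← overK_eq]
    exact Run7.h23.To.irr_over hm hi h1.1 h1.2 (by rw [hd]; exact h2)
  · obtain ⟨c, hc, B₀, h⟩ := Run7.h23.To.count F g hg T
    refine ⟨c, hc, ?_⟩
    filter_upwards [eventually_ge_atTop B₀] with B hB
    obtain ⟨hfin, hle⟩ := h B hB
    have hset : {f : (𝓞 F)[X] | Pool.Agent.N783.PF.Ht g B f} = Polys F g B := by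
      ext f
      exact ht_iff g B f
    rw [hset] at hfin hle
    refine ⟨hfin, (Set.ncard_pos hfin).2 ⟨_, mem F g B⟩, hle.trans ?_⟩
    have h3 : {f : (𝓞 F)[X] | Pool.Agent.N783.PF.Ht g B f ∧
        (∀ v ∈ T, Irreducible (Pool.Agent.N783.PF.rd v.asIdeal f)) ∧
        ∀ v : HeightOneSpectrum (𝓞 F), (2 : 𝓞 F) ∈ v.asIdeal →
          Irreducible (Pool.Agent.N783.PF.rd v.asIdeal f) ∧ Run7.h23.Lo.RegAt v g f} ⊆
        {f ∈ Polys F g B | (∀ 𝔭 ∈ T, IrreducibleMod 𝔭 f) ∧
          ∀ v : HeightOneSpectrum (𝓞 F), (2 : 𝓞 F) ∈ v.asIdeal →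
            IrreducibleMod v f ∧ Regular v g f} := by
      rintro f ⟨hf, h1, h2⟩
      exact ⟨(ht_iff g B f).1 hf, h1, h2⟩
    have h4 := Set.ncard_le_ncard h3 (hfin.subset fun f hf => hf.1)
    exact_mod_cast h4

end Pool.Agent.Results.MP_160b6c_nt.TorsionOverAllFields
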